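import Pool.Agent.LE.StmtsM

/-!
# AVG: the harmonic mean of the Lyapunov exponent
-/

set_option autoImplicit false
set_option linter.unusedSectionVars false

open MeasureTheory ProbabilityTheory Function Filter

open scoped ENNReal BigOperators Topology NNReal

noncomputable section

namespace Pool.Agent.LE.MN.H21

open Pool.Agent.Anderson hiding box mem_box card_box
open Pool.Agent.Loc Pool.Agent.Mob Pool.Agent.Helper54.Bal

variable {d : ℕ}

theorem gmz_ne {V : Site d → ℝ} {Λ : Finset (Site d)} {z : ℂ} {S : Finset (Site d)}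
    {u y : Site d} (hu : u ∈ S) (h : gz V Λ z u y ≠ 0) : gmz V Λ z S y ≠ 0 := by
  intro h0
  unfold gmz at h0
  have h1 : (S.sup fun u => ‖gz V Λ z u y‖₊) = 0 := by exact_mod_cast h0
  have h2 : ‖gz V Λ z u y‖₊ ≤ S.sup fun u => ‖gz V Λ z u y‖₊ :=
    Finset.le_sup (f := fun u => ‖gz V Λ z u y‖₊) hu
  rw [h1] at h2
  exact h (nnnorm_eq_zero.1 (le_antisymm h2 zero_le))

theorem zero_mem_box (N : ℕ) : (0 : Site d) ∈ box (0 : Site d) N := by
  rw [mem_box, sd_self]
  exact Nat.zero_le _

theorem measurable_cE (E₀ η : ℝ) : Measurable (cE E₀ η) := by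
  unfold cE
  fun_prop

theorem mFD1 (msj : MsjStmt) (d : ℕ) (Λ S : Finset (Site d)) (E₀ η : ℝ) :
    Measurable fun p : ℝ × (Site d → ℝ) => FD p.2 Λ (cE E₀ η p.1) S 0 := by
  have h1 := msj d Λ S 0
  have h2 : Measurable (fun p : ℝ × (Site d → ℝ) =>
      ((p.2, cE E₀ η p.1) : (Site d → ℝ) × ℝ)) :=
    Measurable.prodMk measurable_snd ((measurable_cE E₀ η).comp measurable_fst)
  have h3 := h1.comp h2
  exact h3

theorem mFD2 (msj : MsjStmt) (d : ℕ) (Λ S : Finset (Site d)) (E₀ η : ℝ) :
    Measurable (uncurry fun (V : Site d → ℝ) (θ : ℝ) =>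
      ENNReal.ofReal (-FD V Λ (cE E₀ η θ) S 0)) := by
  have h1 := msj d Λ S 0
  have h2 : Measurable (fun p : (Site d → ℝ) × ℝ =>
      ((p.1, cE E₀ η p.2) : (Site d → ℝ) × ℝ)) :=
    Measurable.prodMk measurable_fst ((measurable_cE E₀ η).comp measurable_snd)
  have h3 := h1.comp h2
  have h4 : Measurable fun p : (Site d → ℝ) × ℝ => -FD p.1 Λ (cE E₀ η p.2) S 0 := h3.neg
  exact h4.ennreal_ofReal

theorem avg (jen : JenStmt) (msj : MsjStmt) (lyr : LyrStmt) (lpr : LprStmt) (nzz : NzzStmt) :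
    AvgStmt := by
  intro d s₀ σ E₀ η c γ hd hσ hη hc hL H
  choose M N S hM hMN hS hne hcard hsd hint using fun k : ℕ => H (k + 1)
  have hσ0 : 0 < |σ| := abs_pos.2 hσ
  have hpi := Real.pi_pos
  have hM1 : ∀ k : ℕ, (k : ℝ) + 1 ≤ M k := fun k => by exact_mod_cast hM k
  have hMp : ∀ k : ℕ, (0 : ℝ) < M k := fun k => by
    have h1 := hM1 k
    have h2 : (0 : ℝ) ≤ k := Nat.cast_nonneg k
    linarith
  have mFD : ∀ k, Measurable fun p : ℝ × (Site d → ℝ) =>
      FD p.2 (box 0 (N k)) (cE E₀ η p.1) (S k) 0 := by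
    intro k
    exact mFD1 msj d (box 0 (N k)) (S k) E₀ η
  set K : ℝ := 1 + Real.log (1 + 10 / |σ| * s₀) with hK
  have hK0 : 0 ≤ K := by
    have h1 : (1 : ℝ) ≤ 1 + 10 / |σ| * s₀ := by
      have : 0 ≤ 10 / |σ| * s₀ := by positivity
      linarith
    have := Real.log_nonneg h1
    linarith
  have key : ∀ k, ∫⁻ θ in Set.Ioo 0 (2 * Real.pi),
      ∫⁻ V, ENNReal.ofReal (FD V (box 0 (N k)) (cE E₀ η θ) (S k) 0) ∂(PP d (gl σ)) ≤
        ENNReal.ofReal (2 * Real.pi * (c * M k + K)) := by
    intro k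
    have hae : ∀ᵐ V ∂(PP d (gl σ)), gmz V (box 0 (N k)) (zc E₀ η) (S k) 0 ≠ 0 := by
      obtain ⟨u, hu⟩ := hne k
      have h1 := nzz d (N k) σ (zc E₀ η) u 0 hd hσ (by simpa [zc] using hη) (hS k hu)
        (zero_mem_box _)
      rw [ae_iff]
      refine measure_mono_null (fun V hV => ?_) h1
      rw [Set.mem_ofPred_eq] at hV ⊢
      by_contra hcon
      exact hV (gmz_ne hu hcon)
    have m1 : Measurable fun V : Site d → ℝ => ∫⁻ θ in Set.Ioo 0 (2 * Real.pi),
        ENNReal.ofReal (-FD V (box 0 (N k)) (cE E₀ η θ) (S k) 0) :=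
      Measurable.lintegral_prod_left' (f := fun p : ℝ × (Site d → ℝ) =>
        ENNReal.ofReal (-FD p.2 (box 0 (N k)) (cE E₀ η p.1) (S k) 0)) (mFD k).neg.ennreal_ofReal
    have m2 := mFD2 msj d (box 0 (N k)) (S k) E₀ η
    rw [lintegral_lintegral_swap (mFD k).ennreal_ofReal.aemeasurable]
    calc _ ≤ ∫⁻ V, (ENNReal.ofReal (2 * Real.pi * FZ V (box 0 (N k)) (zc E₀ η) (S k) 0) +
          ∫⁻ θ in Set.Ioo 0 (2 * Real.pi),
            ENNReal.ofReal (-FD V (box 0 (N k)) (cE E₀ η θ) (S k) 0)) ∂(PP d (gl σ)) := by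
          refine lintegral_mono_ae ?_
          filter_upwards [hae] with V hV
          exact jen d V _ _ 0 E₀ η hη hV
      _ = ∫⁻ V, ENNReal.ofReal (2 * Real.pi * FZ V (box 0 (N k)) (zc E₀ η) (S k) 0)
            ∂(PP d (gl σ)) + ∫⁻ V, (∫⁻ θ in Set.Ioo 0 (2 * Real.pi),
            ENNReal.ofReal (-FD V (box 0 (N k)) (cE E₀ η θ) (S k) 0)) ∂(PP d (gl σ)) :=
          lintegral_add_right _ m1
      _ ≤ ENNReal.ofReal (2 * Real.pi) * ENNReal.ofReal (c * M k) +
            ENNReal.ofReal K * ENNReal.ofReal (2 * Real.pi) := by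
          refine add_le_add ?_ ?_
          · have h2 : ∀ V : Site d → ℝ,
                ENNReal.ofReal (2 * Real.pi * FZ V (box 0 (N k)) (zc E₀ η) (S k) 0) =
                ENNReal.ofReal (2 * Real.pi) *
                  ENNReal.ofReal (FZ V (box 0 (N k)) (zc E₀ η) (S k) 0) := fun V =>
              ENNReal.ofReal_mul (by positivity)
            simp only [h2]
            rw [lintegral_const_mul' _ _ ENNReal.ofReal_ne_top]
            exact mul_le_mul_right (hint k) _
          · rw [lintegral_lintegral_swap m2.aemeasurable]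
            calc _ ≤ ∫⁻ _θ in Set.Ioo 0 (2 * Real.pi), ENNReal.ofReal K := by
                  refine lintegral_mono fun θ => ?_
                  refine (lpr d σ (cE E₀ η θ) (N k) (S k) 0 hσ).trans
                    (ENNReal.ofReal_le_ofReal ?_)
                  rw [hK]
                  have h3 : ((S k).card : ℝ) ≤ s₀ := by exact_mod_cast hcard k
                  have h4 : 1 + 10 / |σ| * ((S k).card : ℝ) ≤ 1 + 10 / |σ| * s₀ := by
                    have : 10 / |σ| * ((S k).card : ℝ) ≤ 10 / |σ| * s₀ :=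
                      mul_le_mul_of_nonneg_left h3 (by positivity)
                    linarith
                  have h5 := Real.log_le_log (by positivity) h4
                  linarith
              _ = _ := by
                  rw [setLIntegral_const, Real.volume_Ioo, sub_zero]
      _ = _ := by
          rw [← ENNReal.ofReal_mul (by positivity), ← ENNReal.ofReal_mul hK0,
            ← ENNReal.ofReal_add (by have := (hMp k).le; positivity) (by positivity)]
          congr 1
          ring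
  set f : ℕ → ℝ → ℝ≥0∞ := fun k θ => ENNReal.ofReal (1 / M k) *
    ∫⁻ V, ENNReal.ofReal (FD V (box 0 (N k)) (cE E₀ η θ) (S k) 0) ∂(PP d (gl σ)) with hf
  have mf : ∀ k, Measurable (f k) := by
    intro k
    refine Measurable.const_mul ?_ _
    exact Measurable.lintegral_prod_right' (f := fun p : ℝ × (Site d → ℝ) =>
      ENNReal.ofReal (FD p.2 (box 0 (N k)) (cE E₀ η p.1) (S k) 0)) (mFD k).ennreal_ofReal
  have hlow : ∀ θ, ENNReal.ofReal (γ (cE E₀ η θ)) ≤ liminf (fun k => f k θ) atTop := by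
    intro θ
    set g := γ (cE E₀ η θ) with hg
    have h1 : ∀ ε : ℝ, 0 < ε → ENNReal.ofReal (g - ε) ≤ liminf (fun k => f k θ) atTop := by
      intro ε hε
      obtain ⟨M₀, hM₀⟩ := lyr d s₀ σ (cE E₀ η θ) g ε hd hσ (hL _) hε
      refine le_liminf_of_le (by isBoundedDefault) ?_
      filter_upwards [eventually_ge_atTop M₀] with k hk
      have h2 := hM₀ (M k) (N k) (S k) (by have := hM k; omega) (hMN k) (hS k) (hne k) (hcard k)
        (hsd k)
      calc ENNReal.ofReal (g - ε) = ENNReal.ofReal (1 / M k) * ENNReal.ofReal ((g - ε) * M k) := by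
            rw [← ENNReal.ofReal_mul (by have := (hMp k).le; positivity)]
            congr 1
            have := (hMp k).ne'
            field_simp
        _ ≤ _ := by
            rw [hf]
            exact mul_le_mul_right h2 _
    have h3 : Tendsto (fun k : ℕ => ENNReal.ofReal (g - 1 / ((k : ℝ) + 1))) atTop
        (𝓝 (ENNReal.ofReal g)) := by
      apply ENNReal.tendsto_ofReal
      have h4 := (tendsto_one_div_add_atTop_nhds_zero_nat (𝕜 := ℝ)).const_sub g
      rwa [sub_zero] at h4
    refine le_of_tendsto h3 (Eventually.of_forall fun k => h1 _ (by positivity))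
  have hup : ∀ k, ∫⁻ θ in Set.Ioo 0 (2 * Real.pi), f k θ ≤
      ENNReal.ofReal (2 * Real.pi * (c + K * (1 / ((k : ℝ) + 1)))) := by
    intro k
    simp only [hf]
    rw [lintegral_const_mul' _ _ ENNReal.ofReal_ne_top]
    calc _ ≤ ENNReal.ofReal (1 / M k) * ENNReal.ofReal (2 * Real.pi * (c * M k + K)) :=
          mul_le_mul_right (key k) _
      _ = ENNReal.ofReal (1 / M k * (2 * Real.pi * (c * M k + K))) :=
          (ENNReal.ofReal_mul (by have := (hMp k).le; positivity)).symm
      _ ≤ _ := by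
          apply ENNReal.ofReal_le_ofReal
          have h5 : 1 / (M k : ℝ) ≤ 1 / ((k : ℝ) + 1) :=
            one_div_le_one_div_of_le (by positivity) (hM1 k)
          have h6 : 1 / (M k : ℝ) * (2 * Real.pi * (c * M k + K)) =
              2 * Real.pi * (c + K * (1 / (M k : ℝ))) := by
            have := (hMp k).ne'
            field_simp
          rw [h6]
          have h7 : K * (1 / (M k : ℝ)) ≤ K * (1 / ((k : ℝ) + 1)) :=
            mul_le_mul_of_nonneg_left h5 hK0
          apply mul_le_mul_of_nonneg_left _ (by positivity)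
          linarith
  have hlim : Tendsto (fun k : ℕ => ENNReal.ofReal (2 * Real.pi * (c + K * (1 / ((k : ℝ) + 1)))))
      atTop (𝓝 (ENNReal.ofReal (2 * Real.pi * c))) := by
    apply ENNReal.tendsto_ofReal
    have h4 := ((((tendsto_one_div_add_atTop_nhds_zero_nat (𝕜 := ℝ)).const_mul K).const_add
      c).const_mul (2 * Real.pi))
    rwa [mul_zero, add_zero] at h4
  calc ∫⁻ θ in Set.Ioo 0 (2 * Real.pi), ENNReal.ofReal (γ (cE E₀ η θ))
      ≤ ∫⁻ θ in Set.Ioo 0 (2 * Real.pi), liminf (fun k => f k θ) atTop :=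
        lintegral_mono hlow
    _ ≤ liminf (fun k => ∫⁻ θ in Set.Ioo 0 (2 * Real.pi), f k θ) atTop :=
        lintegral_liminf_le mf
    _ ≤ liminf (fun k : ℕ => ENNReal.ofReal (2 * Real.pi * (c + K * (1 / ((k : ℝ) + 1)))))
          atTop := liminf_le_liminf (Eventually.of_forall hup)
    _ = _ := hlim.liminf_eq

end Pool.Agent.LE.MN.H21
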