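import Pool.Agent.LE.StmtsM

/-!
# NZZ: the Green function at a complex energy has no zeros, almost surely
-/

set_option autoImplicit false
set_option linter.unusedSectionVars false

open MeasureTheory ProbabilityTheory Function Filter

open scoped ENNReal BigOperators Topology NNReal

noncomputable section

namespace Pool.Agent.LE.MN.H21

open Pool.Agent.Anderson hiding box mem_box card_box
open Pool.Agent.Loc Pool.Agent.Mob Pool.Agent.Helper54.Bal Pool.Agent.LY

variable {d : ℕ}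

theorem near {σ : ℝ} (hσ : σ ≠ 0) (Λ : Finset (Site d)) {z : ℂ} (hz : 0 < z.im) {x y : Λ}
    (hxy : x = y ∨ hop (x : Site d) y ≠ 0) :
    PL (gl σ) Λ {V | KB Λ z V x y = 0} = 0 := by
  set M : ℝ := 32 * (d : ℝ) ^ 2 + 4 + ‖z‖ with hM
  have hM0 : 0 < M := by positivity
  obtain ⟨S, hS, hb⟩ := low_marg (bddDens_gl hσ) (M := M) (by
    rw [hM]
    have := norm_nonneg z
    linarith) Λ hz (by
    rw [hM]
    have : 0 ≤ 32 * (d : ℝ) ^ 2 := by positivity
    linarith) hxy
  have hm : Measurable fun V => (en (KB Λ z V x y)) ^ (-(1 / 4) : ℝ) :=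
    ((measurable_KB Λ z x y).norm.ennreal_ofReal).pow_const _
  have h1 := PL_le_of_marg hS hm hb
  have hC : Clow d (gl σ) (1 / |σ|) M ≠ ∞ := by
    unfold Clow CC
    refine ENNReal.mul_ne_top (ENNReal.pow_ne_top (ENNReal.mul_ne_top ENNReal.ofReal_ne_top ?_)) ?_
    · refine ENNReal.add_ne_top.2 ⟨ENNReal.add_ne_top.2 ⟨by norm_num, mom1_gl σ⟩,
        ENNReal.ofReal_ne_top⟩
    · refine ENNReal.rpow_ne_top_of_ne_zero ?_ ENNReal.ofReal_ne_top
      rw [Ne, ENNReal.ofReal_eq_zero, not_le]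
      positivity
  have h2 := ae_lt_top hm (lt_of_le_of_lt h1 (lt_top_iff_ne_top.2 hC)).ne
  rw [ae_iff] at h2
  refine measure_mono_null (fun V hV => ?_) h2
  rw [Set.mem_ofPred_eq] at hV ⊢
  rw [hV, not_lt, top_le_iff]
  simp only [en, norm_zero, ENNReal.ofReal_zero]
  exact ENNReal.zero_rpow_of_neg (by norm_num)

theorem one_pl {σ : ℝ} (hσ : σ ≠ 0) (Λ : Finset (Site d)) {z : ℂ} (hz : 0 < z.im) (u x y : Λ) :
    PL (gl σ) Λ {V | KB Λ z V x y = 0 ∧ KB Λ z V x u ≠ 0 ∧ KB Λ z V u y ≠ 0} = 0 := by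
  have hb : ∀ τ : ℝ, 0 < τ →
      PL (gl σ) Λ {V | KB Λ z V x y = 0 ∧ KB Λ z V x u ≠ 0 ∧ KB Λ z V u y ≠ 0} ≤
        ENNReal.ofReal (8 * (1 / |σ|) / τ) := by
    intro τ hτ
    set T : Set (Site d → ℝ) :=
      {V | τ * ‖KB Λ z V x y‖ < ‖KB Λ z V x u‖ * ‖KB Λ z V u y‖} with hT
    have hmT : MeasurableSet T := measurableSet_lt ((measurable_KB Λ z x y).norm.const_mul _)
      ((measurable_KB Λ z x u).norm.mul (measurable_KB Λ z u y).norm)
    have hsub : {V | KB Λ z V x y = 0 ∧ KB Λ z V x u ≠ 0 ∧ KB Λ z V u y ≠ 0} ⊆ T := by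
      rintro V ⟨h0, h1, h2⟩
      rw [hT, Set.mem_ofPred_eq, h0, norm_zero, mul_zero]
      exact mul_pos (norm_pos_iff.2 h1) (norm_pos_iff.2 h2)
    refine (measure_mono hsub).trans ?_
    rw [← lintegral_indicator_one hmT]
    exact PL_le_of_marg (S := {(u : Site d)}) (by simp) (measurable_one.indicator hmT)
      (one_marg (bddDens_gl hσ) Λ hz u x y hτ)
  have hlim : Tendsto (fun n : ℕ => ENNReal.ofReal (8 * (1 / |σ|) / ((n : ℝ) + 1))) atTop
      (𝓝 0) := by
    have h1 := (tendsto_one_div_add_atTop_nhds_zero_nat (𝕜 := ℝ)).const_mul (8 * (1 / |σ|))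
    rw [mul_zero] at h1
    have h2 := ENNReal.tendsto_ofReal h1
    rw [ENNReal.ofReal_zero] at h2
    refine h2.congr fun n => ?_
    congr 1
    ring
  exact le_antisymm (ge_of_tendsto hlim (Eventually.of_forall fun n => hb _ (by positivity)))
    zero_le

theorem gz_loc {Λ : Finset (Site d)} {z : ℂ} {V V' : Site d → ℝ} (h : ∀ x ∈ Λ, V x = V' x)
    (x y : Site d) : gz V Λ z x y = gz V' Λ z x y := by
  unfold gz
  have e : HC V Λ = HC V' Λ := by
    ext a b
    simp only [HC, HM, Matrix.map_apply, Matrix.of_apply]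
    rw [h _ a.2]
  rw [e]

theorem chain {σ : ℝ} (hσ : σ ≠ 0) {N : ℕ} {z : ℂ} (hz : 0 < z.im) {x : Site d}
    (hx : x ∈ box (0 : Site d) N) (m : ℕ) : ∀ y : Site d, y ∈ box (0 : Site d) N → l1 x y = m →
      PL (gl σ) (box 0 N) {V | gz V (box 0 N) z x y = 0} = 0 := by
  have hKB : ∀ (a b : Site d) (ha : a ∈ box (0 : Site d) N) (hb : b ∈ box (0 : Site d) N)
      (V : Site d → ℝ), KB (box 0 N) z V ⟨a, ha⟩ ⟨b, hb⟩ = 0 ↔ gz V (box 0 N) z a b = 0 := by
    intro a b ha hb V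
    rw [KB_eq_gz, neg_eq_zero]
  have hnear : ∀ (a b : Site d) (ha : a ∈ box (0 : Site d) N) (hb : b ∈ box (0 : Site d) N),
      (a = b ∨ hop a b ≠ 0) → PL (gl σ) (box 0 N) {V | gz V (box 0 N) z a b = 0} = 0 := by
    intro a b ha hb hab
    have h1 := near hσ (box 0 N) hz (x := ⟨a, ha⟩) (y := ⟨b, hb⟩) (by
      rcases hab with h | h
      · left
        exact Subtype.ext h
      · right
        exact h)
    refine measure_mono_null (fun V hV => ?_) h1
    exact (hKB a b ha hb V).2 hV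
  induction m with
  | zero =>
    intro y hy hm
    have hyx : y = x := by
      by_contra hne
      obtain ⟨s', -, hs', -⟩ := Pool.Agent.LE.H54.closer_in hx hy hne
      omega
    exact hnear x y hx hy (Or.inl hyx.symm)
  | succ m ih =>
    intro y hy hm
    have hne : y ≠ x := by
      rintro rfl
      unfold l1 at hm
      simp at hm
    obtain ⟨s', hsm', hs', hhop⟩ := Pool.Agent.LE.H54.closer_in hx hy hne
    have h1 := ih s' hsm' (by omega)
    have h2 := hnear s' y hsm' hy (Or.inr hhop)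
    have h3 := one_pl hσ (box (0 : Site d) N) hz ⟨s', hsm'⟩ ⟨x, hx⟩ ⟨y, hy⟩
    refine measure_mono_null (fun V hV => ?_) (measure_union_null (measure_union_null h1 h2) h3)
    by_cases hc1 : gz V (box 0 N) z x s' = 0
    · exact Or.inl (Or.inl hc1)
    by_cases hc2 : gz V (box 0 N) z s' y = 0
    · exact Or.inl (Or.inr hc2)
    right
    exact ⟨(hKB _ _ hx hy V).2 hV, fun h => hc1 ((hKB _ _ hx hsm' V).1 h),
      fun h => hc2 ((hKB _ _ hsm' hy V).1 h)⟩

theorem nzz : NzzStmt := by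
  intro d N σ z x y _ hσ hz hx hy
  have h1 := chain hσ hz hx _ y hy rfl
  have hl : Pool.Agent.Mob.H75.Loc {V : Site d → ℝ | gz V (box 0 N) z x y = 0} (box 0 N) := by
    intro V V' h
    rw [Set.mem_ofPred_eq, Set.mem_ofPred_eq, gz_loc h]
  exact le_antisymm ((Pool.Agent.Mob.H75.PP_le_PL hl).trans h1.le) zero_le

end Pool.Agent.LE.MN.H21
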